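import Pool.Agent.helper30.B2.ND
import Pool.Agent.helper58.B2.W2
import Pool.Agent.helper98.B2.B0b

/-! # B2, module MA1: sign and order of the eigenvalue functions -/

set_option autoImplicit false

namespace Pool.Agent.helper68.B2

open scoped ContDiff Topology Matrix
open Matrix Set
open Pool.Agent.helper25.B2 (Sol Block)

variable {S : Geo}

lemma MA1_vec (G : M3) (w v : V3) : vecMulVec w (G *ᵥ w) *ᵥ v = bil G v w • w := by
  ext i
  simp only [mulVec, vecMulVec_apply, Pi.smul_apply, smul_eq_mul, bil, dotProduct]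
  rw [Finset.sum_mul]
  exact Finset.sum_congr rfl fun j _ => by ring

/-- MA1: sign and order after the exclusion of scalar block points -/
theorem sign_order (hNC : S.NC) (R : Roots S) :
    (∀ x, x ≠ 0 → R.σ₁ x ≤ R.τ x ∧ R.τ x ≤ R.σ₂ x) ∨
    ((∀ x, x ≠ 0 → R.τ x ≤ R.σ₁ x) ∧ (∀ x, x ≠ 0 → R.τ x < R.σ₂ x)) ∨
    ((∀ x, x ≠ 0 → R.σ₂ x ≤ R.τ x) ∧ (∀ x, x ≠ 0 → R.σ₁ x < R.τ x)) := by
  have hlor : ∀ x, x ≠ 0 → Lor (S.G x) := fun x hx => ⟨S.symm x hx, S.det_neg x hx, S.pos x hx⟩
  have hSA : ∀ x, x ≠ 0 → SA (S.G x) (S.L x - R.τ x • (1 : M3)) := fun x hx =>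
    LA2_sa (S.symm x hx) (S.selfadj x hx) (R.τ x)
  have hdet : ∀ x, x ≠ 0 → (S.L x - R.τ x • (1 : M3)).det = 0 := fun x hx =>
    (RR3_adj (R.fac x hx)).2
  have htr : ∀ x, x ≠ 0 → (S.L x - R.τ x • (1 : M3)).adjugate.trace =
      (R.τ x - R.σ₁ x) * (R.τ x - R.σ₂ x) := fun x hx => (RR3_adj (R.fac x hx)).1
  -- the matrix field
  have hcont : ContinuousOn (fun x => S.Ku (R.τ x) x) {0}ᶜ := by
    have h1 : ContinuousOn (fun x => S.L x - R.τ x • (1 : M3)) {0}ᶜ :=
      S.smL.continuousOn.sub (R.cτ.smul continuousOn_const)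
    have h2 : ContinuousOn (fun x => (S.L x - R.τ x • (1 : M3)).adjugate) {0}ᶜ := by
      have h3 : Continuous (fun A : M3 => A.adjugate) := continuous_id.matrix_adjugate
      exact h3.comp_continuousOn h1
    have h3 : ContinuousOn (fun x => (S.G x)⁻¹) {0}ᶜ := by
      intro x hx
      have h4 : ContDiffAt ℝ ∞ S.G x :=
        ContDiffOn.contDiffAt S.smG (isOpen_compl_singleton.mem_nhds hx)
      exact (contDiffAt_inv h4 (S.det_neg x hx).ne).continuousAt.continuousWithinAt
    exact h2.mul h3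
  have hHom : Hom (fun x => S.Ku (R.τ x) x) := by
    intro t ht x
    show (S.L (t • x) - R.τ (t • x) • (1 : M3)).adjugate * (S.G (t • x))⁻¹ =
      (S.L x - R.τ x • (1 : M3)).adjugate * (S.G x)⁻¹
    rw [S.homL t ht x, R.hτ t ht x, S.homG t ht x]
  obtain ⟨s, hs, w, _, _, hw⟩ := W2_root (fun x => S.Ku (R.τ x) x) hcont hHom (by
    intro x hx
    obtain ⟨s, w, hs, hw, _⟩ := LA_adj_root (hlor x hx) (hSA x hx) (hdet x hx)
    have h1 := LA_ker (hlor x hx) (hSA x hx) (hdet x hx) (R.no_D hNC hx) hs hw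
    exact ⟨w, h1.1, s, hs, hw⟩)
  -- the main formula
  have hkey : ∀ x, x ≠ 0 → s * S.g x (w x) (w x) = (R.τ x - R.σ₁ x) * (R.τ x - R.σ₂ x) ∧
      S.g x (w x) (w x) ≤ 0 := by
    intro x hx
    obtain ⟨hw0, hwx⟩ := hw x hx
    have hadj := LA2_adj (hlor x hx) hwx
    obtain ⟨_, hk, hker⟩ := LA_ker (hlor x hx) (hSA x hx) (hdet x hx) (R.no_D hNC hx) hs hwx
    constructor
    · rw [← htr x hx, hadj, trace_smul, trace_vecMulVec, smul_eq_mul]
      rfl
    · obtain ⟨w', hw', he, hl⟩ := R.causal x hx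
      obtain ⟨c, hc⟩ := hker w' (by
        rw [sub_mulVec, smul_mulVec, one_mulVec, he, sub_self])
      have hc0 : c ≠ 0 := by
        rintro rfl
        rw [zero_smul] at hc
        exact hw' hc
      rw [hc] at hl
      have h1 : S.g x (c • w x) (c • w x) = c ^ 2 * S.g x (w x) (w x) := by
        unfold Geo.g
        rw [LA1_smul_left, LA1_smul_right]; ring
      rw [h1] at hl
      have hc2 : 0 < c ^ 2 := by positivity
      by_contra hpos
      push Not at hpos
      exact absurd hl (not_le.2 (mul_pos hc2 hpos))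
  rcases hs with hs1 | hs1
  · left
    intro x hx
    obtain ⟨h1, h2⟩ := hkey x hx
    rw [hs1, one_mul] at h1
    rw [h1] at h2
    have hle := R.le x hx
    constructor
    · by_contra hc
      push Not at hc
      have : 0 < (R.τ x - R.σ₁ x) * (R.τ x - R.σ₂ x) :=
        mul_pos_of_neg_of_neg (by linarith) (by linarith)
      linarith
    · by_contra hc
      push Not at hc
      have : 0 < (R.τ x - R.σ₁ x) * (R.τ x - R.σ₂ x) :=
        mul_pos (by linarith) (by linarith)
      linarith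
  · right
    have hprod : ∀ x, x ≠ 0 → 0 ≤ (R.τ x - R.σ₁ x) * (R.τ x - R.σ₂ x) := by
      intro x hx
      obtain ⟨h1, h2⟩ := hkey x hx
      rw [hs1] at h1
      linarith
    -- no triple points
    have hnot : ∀ x, x ≠ 0 → ¬ (R.τ x = R.σ₁ x ∧ R.τ x = R.σ₂ x) := by
      rintro x hx ⟨e1, e2⟩
      have hfac : RR3 (S.L x) (R.τ x) (R.τ x) (R.τ x) := by
        have := R.fac x hx
        rwa [← e1, ← e2] at this
      obtain ⟨z, n, e, C, E, hf, hz, he, hn⟩ := LA_triple (hlor x hx) (S.selfadj x hx) hfac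
      obtain ⟨hw0, hwx⟩ := hw x hx
      have hadj := LA2_adj (hlor x hx) hwx
      have hM := ND_adj (S.L x - R.τ x • (1 : M3))
      have ht0 : (S.L x - R.τ x • (1 : M3)).trace = 0 := by
        rw [trace_sub, trace_smul, trace_one, RR3_trace hfac]
        simp
        ring
      have ht1 : (S.L x - R.τ x • (1 : M3)).adjugate.trace = 0 := by
        rw [htr x hx, ← e1]; ring
      rw [ht0, ht1, zero_smul, zero_smul, sub_zero, add_zero] at hM
      have mz : (S.L x - R.τ x • (1 : M3)) *ᵥ z = 0 := by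
        rw [sub_mulVec, smul_mulVec, one_mulVec, hz, sub_self]
      have me : (S.L x - R.τ x • (1 : M3)) *ᵥ e = E • z := by
        rw [sub_mulVec, smul_mulVec, one_mulVec, he]; module
      have mn : (S.L x - R.τ x • (1 : M3)) *ᵥ n = C • z + E • e := by
        rw [sub_mulVec, smul_mulVec, one_mulVec, hn]; module
      have az : (S.L x - R.τ x • (1 : M3)).adjugate *ᵥ z = 0 := by
        rw [hM, ← mulVec_mulVec, mz, mulVec_zero]
      have ae : (S.L x - R.τ x • (1 : M3)).adjugate *ᵥ e = 0 := by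
        rw [hM, ← mulVec_mulVec, me, mulVec_smul, mz, smul_zero]
      have an : (S.L x - R.τ x • (1 : M3)).adjugate *ᵥ n = E ^ 2 • z := by
        rw [hM, ← mulVec_mulVec, mn, mulVec_add, mulVec_smul, mulVec_smul, mz, me]
        module
      have hsym := S.symm x hx
      have nz : bil (S.G x) n z = 1 := by rw [bil_symm hsym]; exact hf.zn
      have h3 : bil (S.G x) n ((S.L x - R.τ x • (1 : M3)).adjugate *ᵥ n) =
          s * bil (S.G x) n (w x) ^ 2 := by
        rw [hadj, smul_mulVec, MA1_vec, LA1_smul_right, LA1_smul_right]; ring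
      rw [an, LA1_smul_right, nz, hs1] at h3
      have hE : E ^ 2 = 0 := by nlinarith [sq_nonneg E, sq_nonneg (bil (S.G x) n (w x))]
      apply R.no_D hNC hx
      apply hf.ext hsym
      · rw [az, zero_mulVec]
      · rw [an, hE, zero_smul, zero_mulVec]
      · rw [ae, zero_mulVec]
    -- the sum has a constant sign
    have hsum : ContinuousOn (fun x => (R.σ₁ x - R.τ x) + (R.σ₂ x - R.τ x)) {0}ᶜ :=
      (R.c₁.sub R.cτ).add (R.c₂.sub R.cτ)
    have hne : ∀ x, x ≠ 0 → (R.σ₁ x - R.τ x) + (R.σ₂ x - R.τ x) ≠ 0 := by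
      intro x hx h0
      have h1 := hprod x hx
      have h2 : R.σ₂ x - R.τ x = -(R.σ₁ x - R.τ x) := by linarith
      have h3 : (R.τ x - R.σ₁ x) * (R.τ x - R.σ₂ x) = -(R.σ₁ x - R.τ x) ^ 2 := by
        have : R.τ x - R.σ₂ x = R.σ₁ x - R.τ x := by linarith
        rw [this]; ring
      rw [h3] at h1
      have h4 : (R.σ₁ x - R.τ x) ^ 2 = 0 := le_antisymm (by linarith) (sq_nonneg _)
      have h5 : R.σ₁ x - R.τ x = 0 := pow_eq_zero_iff two_ne_zero |>.1 h4
      exact hnot x hx ⟨by linarith, by linarith⟩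
    by_cases hpos : ∃ y : E4, y ≠ 0 ∧ 0 < (R.σ₁ y - R.τ y) + (R.σ₂ y - R.τ y)
    · left
      obtain ⟨y, hy, hy0⟩ := hpos
      have hall : ∀ x, x ≠ 0 → 0 < (R.σ₁ x - R.τ x) + (R.σ₂ x - R.τ x) := by
        intro x hx
        by_contra hle
        obtain ⟨z, hz, hz0⟩ := isPreconnected_compl_zero.intermediate_value
          (show x ∈ ({0}ᶜ : Set E4) from hx) (show y ∈ ({0}ᶜ : Set E4) from hy) hsum
          ⟨not_lt.1 hle, hy0.le⟩
        exact hne z hz hz0
      constructor
      · intro x hx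
        have h1 := hall x hx
        have h2 := hprod x hx
        have h3 := R.le x hx
        by_contra hc
        push Not at hc
        have h4 : R.τ x - R.σ₂ x < 0 := by linarith
        have : (R.τ x - R.σ₁ x) * (R.τ x - R.σ₂ x) < 0 :=
          mul_neg_of_pos_of_neg (by linarith) h4
        linarith
      · intro x hx
        have h1 := hall x hx
        have h3 := R.le x hx
        linarith
    · right
      have hall : ∀ x, x ≠ 0 → (R.σ₁ x - R.τ x) + (R.σ₂ x - R.τ x) < 0 := by
        intro x hx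
        refine lt_of_le_of_ne ?_ (hne x hx)
        by_contra hc
        push Not at hc
        exact hpos ⟨x, hx, hc⟩
      constructor
      · intro x hx
        have h1 := hall x hx
        have h2 := hprod x hx
        have h3 := R.le x hx
        by_contra hc
        push Not at hc
        have h4 : R.σ₁ x - R.τ x < 0 := by linarith
        have : (R.τ x - R.σ₁ x) * (R.τ x - R.σ₂ x) < 0 :=
          mul_neg_of_pos_of_neg (by linarith) (by linarith)
        linarith
      · intro x hx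
        have h1 := hall x hx
        have h3 := R.le x hx
        linarith

end Pool.Agent.helper68.B2
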