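import Pool.Agent.helper68.B2.Defs2

/-! # B2, module LA1: Lorentz linear algebra in dimension 3 -/

set_option autoImplicit false

namespace Pool.Agent.helper68.B2

open scoped ContDiff Topology Matrix
open Matrix Set

theorem bil_symm {G : M3} (h : Gᵀ = G) (u v : V3) : bil G u v = bil G v u := by
  unfold bil
  rw [dotProduct_mulVec, dotProduct_comm, ← mulVec_transpose, h]

lemma LA1_add_left (G : M3) (u v w : V3) : bil G (u + v) w = bil G u w + bil G v w := by
  unfold bil; rw [add_dotProduct]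

lemma LA1_sub_left (G : M3) (u v w : V3) : bil G (u - v) w = bil G u w - bil G v w := by
  unfold bil; rw [sub_dotProduct]

lemma LA1_smul_left (G : M3) (c : ℝ) (u w : V3) : bil G (c • u) w = c * bil G u w := by
  unfold bil; rw [smul_dotProduct, smul_eq_mul]

lemma LA1_add_right (G : M3) (u v w : V3) : bil G u (v + w) = bil G u v + bil G u w := by
  unfold bil; rw [mulVec_add, dotProduct_add]

lemma LA1_sub_right (G : M3) (u v w : V3) : bil G u (v - w) = bil G u v - bil G u w := by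
  unfold bil; rw [mulVec_sub, dotProduct_sub]

lemma LA1_smul_right (G : M3) (c : ℝ) (u w : V3) : bil G u (c • w) = c * bil G u w := by
  unfold bil; rw [mulVec_smul, dotProduct_smul, smul_eq_mul]

lemma LA1_zero_left (G : M3) (w : V3) : bil G 0 w = 0 := by
  unfold bil; rw [zero_dotProduct]

lemma LA1_zero_right (G : M3) (w : V3) : bil G w 0 = 0 := by
  unfold bil; rw [mulVec_zero, dotProduct_zero]

/-- self-adjointness -/
lemma LA1_sa {G A : M3} (h : Gᵀ = G) (hA : SA G A) (u v : V3) :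
    bil G (A *ᵥ u) v = bil G u (A *ᵥ v) := by
  have h1 : Aᵀ * G = G * A := by
    rw [← hA, transpose_mul, h]
  unfold bil
  rw [mulVec_mulVec v G A, ← h1, ← mulVec_mulVec, dotProduct_mulVec u, vecMul_transpose]

/-- the matrix with columns `z, n, e` -/
def LA1_P (z n e : V3) : M3 := Matrix.of fun i j => (![z, n, e] j) i

/-- the null form -/
def LA1_eta : M3 := !![0, 1, 0; 1, 0, 0; 0, 0, 1]

lemma LA1_P_mul (z n e v : V3) : LA1_P z n e *ᵥ v = v 0 • z + v 1 • n + v 2 • e := by
  ext i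
  simp [LA1_P, mulVec, dotProduct, Fin.sum_univ_three]
  ring

lemma LA1_gram (G : M3) (z n e : V3) (i j : Fin 3) :
    ((LA1_P z n e)ᵀ * G * LA1_P z n e) i j = bil G (![z, n, e] i) (![z, n, e] j) := by
  rw [Matrix.mul_assoc]
  unfold bil
  rw [Matrix.mul_apply]
  simp only [dotProduct, mulVec, Matrix.mul_apply, transpose_apply, LA1_P, of_apply]

lemma LA1_PGP {G : M3} (h : Gᵀ = G) {z n e : V3} (hf : NFrame G z n e) :
    (LA1_P z n e)ᵀ * G * LA1_P z n e = LA1_eta := by
  ext i j
  rw [LA1_gram]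
  have nz : bil G n z = 1 := by rw [bil_symm h]; exact hf.zn
  have ez : bil G e z = 0 := by rw [bil_symm h]; exact hf.ze
  have en : bil G e n = 0 := by rw [bil_symm h]; exact hf.ne
  fin_cases i <;> fin_cases j <;>
    simp [LA1_eta, hf.zz, hf.nn, hf.zn, hf.ee, hf.ze, hf.ne, nz, ez, en]

lemma LA1_eta_det : LA1_eta.det = -1 := by
  rw [LA1_eta, det_fin_three]; simp

lemma LA1_P_det {G : M3} (h : Gᵀ = G) {z n e : V3} (hf : NFrame G z n e) :
    (LA1_P z n e).det ≠ 0 := by
  intro h0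
  have h1 := congrArg Matrix.det (LA1_PGP h hf)
  rw [det_mul, det_mul, h0, LA1_eta_det] at h1
  norm_num at h1

lemma LA1_nondeg {G : M3} (h : Lor G) {v : V3} (hv : ∀ w, bil G v w = 0) : v = 0 := by
  have h1 : G *ᵥ v = 0 := by
    have h2 := hv (G *ᵥ v)
    rw [bil_symm h.symm] at h2
    unfold bil at h2
    exact dotProduct_self_eq_zero.1 h2
  by_contra h0
  exact h.det_neg.ne (exists_mulVec_eq_zero_iff.1 ⟨v, h0, h1⟩)

/-- expansion in a null frame -/
theorem NFrame.expand {G : M3} (h : Gᵀ = G) {z n e : V3} (hf : NFrame G z n e) (v : V3) :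
    v = bil G v n • z + bil G v z • n + bil G v e • e := by
  have hP := LA1_P_det h hf
  have hu : IsUnit (LA1_P z n e).det := isUnit_iff_ne_zero.2 hP
  set y : V3 := (LA1_P z n e)⁻¹ *ᵥ v with hy
  have h1 : v = y 0 • z + y 1 • n + y 2 • e := by
    rw [← LA1_P_mul, hy, mulVec_mulVec, mul_nonsing_inv _ hu, one_mulVec]
  have nz : bil G n z = 1 := by rw [bil_symm h]; exact hf.zn
  have ez : bil G e z = 0 := by rw [bil_symm h]; exact hf.ze
  have en : bil G e n = 0 := by rw [bil_symm h]; exact hf.ne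
  have a1 : bil G v n = y 0 := by
    rw [h1]; simp only [LA1_add_left, LA1_smul_left, hf.zn, hf.nn, en]; ring
  have a2 : bil G v z = y 1 := by
    rw [h1]; simp only [LA1_add_left, LA1_smul_left, hf.zz, nz, ez]; ring
  have a3 : bil G v e = y 2 := by
    rw [h1]; simp only [LA1_add_left, LA1_smul_left, hf.ze, hf.ne, hf.ee]; ring
  rw [a1, a2, a3]; exact h1

/-- two endomorphisms (or matrices) which agree on a null frame are equal -/
theorem NFrame.ext {G : M3} (h : Gᵀ = G) {z n e : V3} (hf : NFrame G z n e) {A B : M3}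
    (h1 : A *ᵥ z = B *ᵥ z) (h2 : A *ᵥ n = B *ᵥ n) (h3 : A *ᵥ e = B *ᵥ e) : A = B := by
  have h4 : ∀ v, A *ᵥ v = B *ᵥ v := by
    intro v
    rw [hf.expand h v]
    simp only [mulVec_add, mulVec_smul, h1, h2, h3]
  ext i j
  have h5 := congrFun (h4 (Pi.single j 1)) i
  simpa using h5

/-- eigenvectors of different eigenvalues are orthogonal -/
theorem LA_orth {G A : M3} (h : Gᵀ = G) (hA : SA G A) {μ μ' : ℝ} (hne : μ ≠ μ') {w w' : V3}
    (he : A *ᵥ w = μ • w) (he' : A *ᵥ w' = μ' • w') : bil G w w' = 0 := by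
  have h1 := LA1_sa h hA w w'
  rw [he, he', LA1_smul_left, LA1_smul_right] at h1
  have h2 : (μ - μ') * bil G w w' = 0 := by linarith
  rcases mul_eq_zero.1 h2 with h3 | h3
  · exact absurd (sub_eq_zero.1 h3) hne
  · exact h3

/-- any null vector orthogonal to the unit vector `e` extends to a null frame -/
theorem LA_frame {G : M3} (h : Lor G) {z e : V3} (hz : z ≠ 0) (hzz : bil G z z = 0)
    (he : bil G e e = 1) (hze : bil G z e = 0) : ∃ n, NFrame G z n e := by
  obtain ⟨m, hm⟩ : ∃ m, bil G z m ≠ 0 := by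
    by_contra hc
    push Not at hc
    exact hz (LA1_nondeg h hc)
  set κ := bil G z m with hκ
  set m' : V3 := m - bil G m e • e with hm'
  have h1 : bil G z m' = κ := by
    rw [hm', LA1_sub_right, LA1_smul_right, hze]; ring
  have h2 : bil G m' e = 0 := by
    rw [hm', LA1_sub_left, LA1_smul_left, he]; ring
  have h1' : bil G m' z = κ := by rw [bil_symm h.symm]; exact h1
  refine ⟨(1 / κ) • m' - (bil G m' m' / (2 * κ ^ 2)) • z, ⟨hzz, ?_, ?_, he, hze, ?_⟩⟩
  · simp only [LA1_sub_left, LA1_sub_right, LA1_smul_left, LA1_smul_right, h1, h1', hzz]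
    field_simp
    ring
  · simp only [LA1_sub_right, LA1_smul_right, h1, hzz]
    field_simp
    ring
  · simp only [LA1_sub_left, LA1_smul_left, h2, hze]
    ring

/-- null vectors in an indefinite plane -/
lemma LA1_plane {G : M3} (h : Gᵀ = G) {p q e : V3} (hpe : bil G p e = 0) (hqe : bil G q e = 0)
    (hd : bil G p p * bil G q q - bil G p q ^ 2 < 0) (he : bil G e e = 1) :
    ∃ z n, NFrame G z n e := by
  have hqp : bil G q p = bil G p q := bil_symm h _ _
  by_cases hp : bil G p p = 0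
  · have hpq : bil G p q ≠ 0 := by
      intro h0
      rw [hp, h0] at hd
      norm_num at hd
    refine ⟨p, (1 / bil G p q) • q - (bil G q q / (2 * bil G p q ^ 2)) • p,
      ⟨hp, ?_, ?_, he, hpe, ?_⟩⟩
    · simp only [LA1_sub_left, LA1_sub_right, LA1_smul_left, LA1_smul_right, hp, hqp]
      field_simp
      ring
    · simp only [LA1_sub_right, LA1_smul_right, hp]
      field_simp
      ring
    · simp only [LA1_sub_left, LA1_smul_left, hpe, hqe]
      ring
  · set D := bil G p q ^ 2 - bil G p p * bil G q q with hD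
    have hD0 : 0 < D := by rw [hD]; linarith
    set r := Real.sqrt D with hr
    have hr2 : r ^ 2 = D := Real.sq_sqrt hD0.le
    have hr0 : r ≠ 0 := by
      intro h0; rw [h0] at hr2; norm_num at hr2; linarith
    have hr2' : r ^ 2 = bil G p q ^ 2 - bil G p p * bil G q q := by rw [hr2, hD]
    refine ⟨(-bil G p q + r) • p + (bil G p p) • q,
      (-1 / (2 * r ^ 2 * bil G p p)) • ((-bil G p q - r) • p + (bil G p p) • q),
      ⟨?_, ?_, ?_, he, ?_, ?_⟩⟩
    · simp only [LA1_add_left, LA1_add_right, LA1_smul_left, LA1_smul_right, hqp]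
      linear_combination bil G p p * hr2'
    · simp only [LA1_add_left, LA1_add_right, LA1_smul_left, LA1_smul_right, hqp]
      linear_combination (-1 / (2 * r ^ 2 * bil G p p)) ^ 2 * bil G p p * hr2'
    · simp only [LA1_add_left, LA1_add_right, LA1_smul_left, LA1_smul_right, hqp]
      have e1 : (-bil G p q + r) * ((-bil G p q - r) * bil G p p) +
          bil G p p * ((-bil G p q - r) * bil G p q) + ((-bil G p q + r) * (bil G p p *
          bil G p q) + bil G p p * (bil G p p * bil G q q)) = -(2 * r ^ 2 * bil G p p) := by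
        linear_combination bil G p p * hr2'
      have e2 : 2 * r ^ 2 * bil G p p ≠ 0 := by positivity
      have e3 : (-1 / (2 * r ^ 2 * bil G p p)) * (-(2 * r ^ 2 * bil G p p)) = 1 := by
        field_simp
      rw [← e1] at e3
      linear_combination e3
    · simp only [LA1_add_left, LA1_smul_left, hpe, hqe]
      ring
    · simp only [LA1_add_left, LA1_smul_left, hpe, hqe]
      ring

/-- a unit vector has a null frame -/
theorem LA_frame_e {G : M3} (h : Lor G) {e : V3} (he : bil G e e = 1) :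
    ∃ z n, NFrame G z n e := by
  have he0 : e ≠ 0 := by
    rintro rfl
    rw [LA1_zero_left] at he
    norm_num at he
  obtain ⟨x, y, hxy⟩ : ∃ x y : V3, (LA1_P x y e).det ≠ 0 := by
    obtain ⟨k, hk⟩ := Function.ne_iff.1 he0
    fin_cases k
    · refine ⟨![0, 1, 0], ![0, 0, 1], ?_⟩
      rw [det_fin_three]; simpa [LA1_P] using hk
    · refine ⟨![1, 0, 0], ![0, 0, 1], ?_⟩
      rw [det_fin_three]; simpa [LA1_P] using hk
    · refine ⟨![1, 0, 0], ![0, 1, 0], ?_⟩
      rw [det_fin_three]; simpa [LA1_P] using hk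
  set p : V3 := x - bil G x e • e with hp
  set q : V3 := y - bil G y e • e with hq
  have hpe : bil G p e = 0 := by rw [hp, LA1_sub_left, LA1_smul_left, he]; ring
  have hqe : bil G q e = 0 := by rw [hq, LA1_sub_left, LA1_smul_left, he]; ring
  have hdet : (LA1_P p q e).det = (LA1_P x y e).det := by
    rw [det_fin_three, det_fin_three, hp, hq]
    simp [LA1_P]
    ring
  refine LA1_plane h.symm hpe hqe ?_ he
  have h1 : ((LA1_P p q e)ᵀ * G * LA1_P p q e).det < 0 := by
    rw [det_mul, det_mul, det_transpose, hdet]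
    have := h.det_neg
    have h2 : 0 < (LA1_P x y e).det ^ 2 := by positivity
    nlinarith
  rw [det_fin_three] at h1
  simp only [LA1_gram] at h1
  have hep : bil G e p = 0 := by rw [bil_symm h.symm]; exact hpe
  have heq : bil G e q = 0 := by rw [bil_symm h.symm]; exact hqe
  have hqp : bil G q p = bil G p q := bil_symm h.symm _ _
  simp [hpe, hqe, hep, heq, he, hqp] at h1
  nlinarith

lemma LA1_unit {G : M3} {v : V3} (hv : 0 < bil G v v) :
    bil G ((Real.sqrt (bil G v v))⁻¹ • v) ((Real.sqrt (bil G v v))⁻¹ • v) = 1 := by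
  rw [LA1_smul_left, LA1_smul_right]
  have h1 : Real.sqrt (bil G v v) ^ 2 = bil G v v := Real.sq_sqrt hv.le
  have h2 : Real.sqrt (bil G v v) ≠ 0 := (Real.sqrt_pos.2 hv).ne'
  field_simp
  exact h1.symm

lemma LA1_exists {G : M3} (h : Lor G) : ∃ z n e, NFrame G z n e := by
  obtain ⟨v, hv⟩ := h.pos
  obtain ⟨z, n, hf⟩ := LA_frame_e h (LA1_unit hv)
  exact ⟨z, n, _, hf⟩

/-- the form in a null frame -/
lemma LA1_form {G : M3} (h : Gᵀ = G) {z n e : V3} (hf : NFrame G z n e) (a b c a' b' c' : ℝ) :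
    bil G (a • z + b • n + c • e) (a' • z + b' • n + c' • e) = a * b' + b * a' + c * c' := by
  have nz : bil G n z = 1 := by rw [bil_symm h]; exact hf.zn
  have ez : bil G e z = 0 := by rw [bil_symm h]; exact hf.ze
  have en : bil G e n = 0 := by rw [bil_symm h]; exact hf.ne
  simp only [LA1_add_left, LA1_add_right, LA1_smul_left, LA1_smul_right, hf.zz, hf.nn, hf.zn,
    hf.ee, hf.ze, hf.ne, nz, ez, en]
  ring

lemma LA1_coord {G : M3} (h : Gᵀ = G) {z n e : V3} (hf : NFrame G z n e) (v : V3) :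
    ∃ a b c : ℝ, v = a • z + b • n + c • e := ⟨_, _, _, hf.expand h v⟩

theorem LA_causal_orth {G : M3} (h : Lor G) {u w : V3} (huw : bil G u w = 0)
    (hu : bil G u u ≤ 0) (hw : bil G w w ≤ 0) (hu0 : u ≠ 0) (hw0 : w ≠ 0) :
    bil G u u = 0 ∧ bil G w w = 0 ∧ ∃ c : ℝ, c ≠ 0 ∧ w = c • u := by
  obtain ⟨z, n, e, hf⟩ := LA1_exists h
  obtain ⟨a, b, c, rfl⟩ := LA1_coord h.symm hf u
  obtain ⟨a', b', c', rfl⟩ := LA1_coord h.symm hf w
  rw [LA1_form h.symm hf] at huw hu hw ⊢
  rw [LA1_form h.symm hf]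
  have h1 : (a * b' - b * a') ^ 2 ≤ 0 := by
    have e1 : (a * b' + b * a') ^ 2 = c ^ 2 * c' ^ 2 := by
      have : a * b' + b * a' = -(c * c') := by linarith
      rw [this]; ring
    have e2 : c ^ 2 * c' ^ 2 ≤ (-(2 * (a * b))) * (-(2 * (a' * b'))) := by
      apply mul_le_mul
      · nlinarith
      · nlinarith
      · positivity
      · nlinarith [sq_nonneg c]
    nlinarith
  have h2 : a * b' = b * a' := by
    have : a * b' - b * a' = 0 := by
      have := le_antisymm h1 (sq_nonneg _)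
      exact pow_eq_zero_iff (two_ne_zero) |>.1 this
    linarith
  have h3 : c * c' = -(2 * (a * b')) := by linarith
  have hu1 : ¬ (a = 0 ∧ b = 0 ∧ c = 0) := by
    rintro ⟨rfl, rfl, rfl⟩
    simp at hu0
  have hw1 : ¬ (a' = 0 ∧ b' = 0 ∧ c' = 0) := by
    rintro ⟨rfl, rfl, rfl⟩
    simp at hw0
  by_cases ha : a = 0
  · subst ha
    have hc : c = 0 := by nlinarith [sq_nonneg c]
    subst hc
    have hb : b ≠ 0 := fun hb => hu1 ⟨rfl, hb, rfl⟩
    have ha' : a' = 0 := by
      have : b * a' = 0 := by linarith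
      exact (mul_eq_zero.1 this).resolve_left hb
    subst ha'
    have hc' : c' = 0 := by nlinarith [sq_nonneg c']
    subst hc'
    have hb' : b' ≠ 0 := fun hb => hw1 ⟨rfl, hb, rfl⟩
    refine ⟨by ring, by ring, b' / b, div_ne_zero hb' hb, ?_⟩
    simp only [smul_add, smul_smul, zero_smul, smul_zero]
    rw [div_mul_cancel₀ _ hb]
  · obtain ⟨t, ht⟩ : ∃ t, a' = t * a := ⟨a' / a, by field_simp⟩
    have hb' : b' = t * b := by
      have : a * (b' - t * b) = 0 := by rw [ht] at h2; linarith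
      have := (mul_eq_zero.1 this).resolve_left ha
      linarith
    subst ht hb'
    have ht0 : t ≠ 0 := by
      rintro rfl
      apply hw1
      refine ⟨by ring, by ring, ?_⟩
      nlinarith [sq_nonneg c']
    have ht2 : 0 < t ^ 2 := by positivity
    have hX : c ^ 2 ≤ -(2 * (a * b)) := by nlinarith
    have hY : c' ^ 2 ≤ t ^ 2 * (-(2 * (a * b))) := by nlinarith
    set X := -(2 * (a * b)) with hXd
    have hX0 : 0 ≤ X := le_trans (sq_nonneg c) hX
    have hcc : c * c' = t * X := by rw [h3, hXd]; ring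
    have hprod : c ^ 2 * c' ^ 2 = t ^ 2 * X ^ 2 := by
      have : (c * c') ^ 2 = (t * X) ^ 2 := by rw [hcc]
      linarith [this, mul_pow c c' 2, mul_pow t X 2]
    have hc2 : c ^ 2 = X := by
      rcases hX0.eq_or_lt with h0 | h0
      · nlinarith [sq_nonneg c]
      · by_contra hne
        have hlt : c ^ 2 < X := lt_of_le_of_ne hX hne
        have g1 : c ^ 2 * c' ^ 2 ≤ c ^ 2 * (t ^ 2 * X) :=
          mul_le_mul_of_nonneg_left hY (sq_nonneg c)
        have g2 : c ^ 2 * (t ^ 2 * X) < X * (t ^ 2 * X) :=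
          mul_lt_mul_of_pos_right hlt (by positivity)
        nlinarith
    have hc' : c' = t * c := by
      by_cases h0 : c = 0
      · have hX00 : X = 0 := by rw [← hc2, h0]; ring
        rw [hX00] at hY
        rw [h0]
        nlinarith [sq_nonneg c']
      · have : c * (c' - t * c) = 0 := by
          have : c * (c' - t * c) = c * c' - t * c ^ 2 := by ring
          rw [this, hcc, hc2]; ring
        have := (mul_eq_zero.1 this).resolve_left h0
        linarith
    subst hc'
    refine ⟨?_, ?_, t, ht0, ?_⟩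
    · linarith
    · have : (t * c) * (t * c) = t ^ 2 * X := by rw [← hc2]; ring
      rw [this, hXd]; ring
    · simp only [smul_add, smul_smul]

theorem LA_causal_unique {G A : M3} (h : Lor G) (hA : SA G A) {μ μ' : ℝ} {w w' : V3}
    (hw : w ≠ 0) (hw' : w' ≠ 0) (he : A *ᵥ w = μ • w) (he' : A *ᵥ w' = μ' • w')
    (hc : bil G w w ≤ 0) (hc' : bil G w' w' ≤ 0) : μ = μ' := by
  by_contra hne
  have h1 := LA_orth h.symm hA hne he he'
  obtain ⟨_, _, c, hc0, rfl⟩ := LA_causal_orth h h1 hc hc' hw hw'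
  rw [mulVec_smul, he, smul_smul, smul_smul] at he'
  have h2 : (c * μ - μ' * c) • w = 0 := by rw [sub_smul, he', sub_self]
  rcases smul_eq_zero.1 h2 with h3 | h3
  · apply hne
    have : c * (μ - μ') = 0 := by linarith
    have := (mul_eq_zero.1 this).resolve_left hc0
    linarith
  · exact hw h3

theorem LA_exists_e {G : M3} (h : Lor G) {z : V3} (hz : z ≠ 0) (hzz : bil G z z = 0) :
    ∃ e, bil G e e = 1 ∧ bil G z e = 0 := by
  obtain ⟨z0, n0, e0, hf⟩ := LA1_exists h
  obtain ⟨a, b, c, rfl⟩ := LA1_coord h.symm hf z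
  rw [LA1_form h.symm hf] at hzz
  by_cases hb : b = 0
  · subst hb
    have hc : c = 0 := by nlinarith [sq_nonneg c]
    subst hc
    refine ⟨(0 : ℝ) • z0 + (0 : ℝ) • n0 + (1 : ℝ) • e0, ?_, ?_⟩
    · rw [LA1_form h.symm hf]; ring
    · rw [LA1_form h.symm hf]; ring
  · refine ⟨(-c / b) • z0 + (0 : ℝ) • n0 + (1 : ℝ) • e0, ?_, ?_⟩
    · rw [LA1_form h.symm hf]; ring
    · rw [LA1_form h.symm hf]; field_simp; ring

/-- matrix of a self-adjoint endomorphism in a null frame -/
lemma LA1_mat {G A : M3} (h : Lor G) (hA : SA G A) {z n e : V3} (hf : NFrame G z n e) :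
    ∃ p q r s t u : ℝ, A *ᵥ z = p • z + s • n + t • e ∧ A *ᵥ n = q • z + p • n + r • e ∧
      A *ᵥ e = r • z + t • n + u • e ∧ q = bil G n (A *ᵥ n) ∧ s = bil G z (A *ᵥ z) ∧
      r = bil G n (A *ᵥ e) ∧ t = bil G z (A *ᵥ e) ∧ u = bil G e (A *ᵥ e) ∧
      p = bil G n (A *ᵥ z) ∧ ∀ x : ℝ, (x • (1 : M3) - A).det =
        (x - p) ^ 2 * (x - u) - q * s * (x - u) - 2 * r * t * (x - p) - q * t ^ 2
          - s * r ^ 2 := by
  have hs := bil_symm h.symm
  have sa := LA1_sa h.symm hA
  have e1 := hf.expand h.symm (A *ᵥ z)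
  have e2 := hf.expand h.symm (A *ᵥ n)
  have e3 := hf.expand h.symm (A *ᵥ e)
  rw [sa z n, sa z z, sa z e] at e1
  rw [sa n z, sa n n, sa n e] at e2
  rw [hs (A *ᵥ e) n, hs (A *ᵥ e) z, hs (A *ᵥ e) e] at e3
  rw [hs z (A *ᵥ n), sa n z] at e1
  refine ⟨bil G n (A *ᵥ z), bil G n (A *ᵥ n), bil G n (A *ᵥ e), bil G z (A *ᵥ z),
    bil G z (A *ᵥ e), bil G e (A *ᵥ e), e1, e2, e3, rfl, rfl, rfl, rfl, rfl, rfl, ?_⟩
  intro x
  generalize bil G n (A *ᵥ z) = p at *
  generalize bil G n (A *ᵥ n) = q at *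
  generalize bil G n (A *ᵥ e) = r at *
  generalize bil G z (A *ᵥ z) = s at *
  generalize bil G z (A *ᵥ e) = t at *
  generalize bil G e (A *ᵥ e) = u at *
  have hP := LA1_P_det h.symm hf
  have hAP : (x • (1 : M3) - A) * LA1_P z n e = LA1_P z n e *
      !![x - p, -q, -r; -s, x - p, -t; -t, -r, x - u] := by
    have key : ∀ (B : M3) (i j : Fin 3), (B * LA1_P z n e) i j = (B *ᵥ (![z, n, e] j)) i := by
      intro B i j
      rw [Matrix.mul_apply]
      simp [mulVec, dotProduct, LA1_P]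
    ext i j
    rw [key]
    rw [sub_mulVec, smul_mulVec, one_mulVec]
    rw [Matrix.mul_apply]
    fin_cases j
    · simp [Fin.sum_univ_three, LA1_P, e1]
      ring
    · simp [Fin.sum_univ_three, LA1_P, e2]
      ring
    · simp [Fin.sum_univ_three, LA1_P, e3]
      ring
  have h1 := congrArg Matrix.det hAP
  rw [det_mul, det_mul, mul_comm] at h1
  have h2 := mul_left_cancel₀ hP h1
  rw [h2, det_fin_three]
  simp
  ring

lemma LA1_eigen {A : M3} {a : ℝ} (hd : (a • (1 : M3) - A).det = 0) :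
    ∃ v : V3, v ≠ 0 ∧ A *ᵥ v = a • v := by
  obtain ⟨v, hv, h0⟩ := exists_mulVec_eq_zero_iff.2 hd
  refine ⟨v, hv, ?_⟩
  rw [sub_mulVec, smul_mulVec, one_mulVec, sub_eq_zero] at h0
  exact h0.symm

lemma LA1_z_ne {G : M3} {z n e : V3} (hf : NFrame G z n e) : z ≠ 0 := by
  rintro rfl
  have := hf.zn
  rw [LA1_zero_left] at this
  norm_num at this

lemma LA1_n_ne {G : M3} {z n e : V3} (hf : NFrame G z n e) : n ≠ 0 := by
  rintro rfl
  have := hf.zn
  rw [LA1_zero_right] at this
  norm_num at this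

theorem LA_causal_exists {G A : M3} (h : Lor G) (hA : SA G A) {a b c : ℝ} (hr : RR3 A a b c) :
    ∃ (μ : ℝ) (w : V3), w ≠ 0 ∧ A *ᵥ w = μ • w ∧ bil G w w ≤ 0 := by
  obtain ⟨v, hv, hav⟩ := LA1_eigen (A := A) (a := a) (by rw [hr a]; ring)
  by_cases hvv : bil G v v ≤ 0
  · exact ⟨a, v, hv, hav, hvv⟩
  · push Not at hvv
    obtain ⟨e, he⟩ : ∃ e, e = (Real.sqrt (bil G v v))⁻¹ • v := ⟨_, rfl⟩
    have hee : bil G e e = 1 := by rw [he]; exact LA1_unit hvv
    have hae : A *ᵥ e = a • e := by rw [he, mulVec_smul, hav, smul_comm]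
    obtain ⟨z, n, hf⟩ := LA_frame_e h hee
    obtain ⟨p, q, r, s, t, u, e1, e2, _, hq, hs, hr', ht, hu, _, hdet⟩ := LA1_mat h hA hf
    have r0 : r = 0 := by rw [hr', hae, LA1_smul_right, hf.ne]; ring
    have t0 : t = 0 := by rw [ht, hae, LA1_smul_right, hf.ze]; ring
    have u0 : u = a := by rw [hu, hae, LA1_smul_right, hf.ee]; ring
    subst r0 t0 u0
    have h1 := hdet (u + 1)
    have h2 := hdet (u - 1)
    rw [hr] at h1 h2
    have hp : 2 * p = b + c := by linarith
    have hqs : q * s = ((b - c) / 2) ^ 2 := by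
      have : p = (b + c) / 2 := by linarith
      subst this
      linarith
    by_cases hs0 : s = 0
    · refine ⟨p, z, LA1_z_ne hf, ?_, hf.zz.le⟩
      rw [e1, hs0]; simp
    by_cases hq0 : q = 0
    · refine ⟨p, n, LA1_n_ne hf, ?_, hf.nn.le⟩
      rw [e2, hq0]; simp
    have hpos : 0 ≤ q * s := by rw [hqs]; positivity
    obtain ⟨σ, hσ2, hσ⟩ : ∃ σ : ℝ, σ * σ = q * s ∧ q * σ ≤ 0 := by
      rcases le_total q 0 with hq' | hq'
      · exact ⟨Real.sqrt (q * s), Real.mul_self_sqrt hpos,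
          mul_nonpos_of_nonpos_of_nonneg hq' (Real.sqrt_nonneg _)⟩
      · exact ⟨-Real.sqrt (q * s), by rw [neg_mul_neg]; exact Real.mul_self_sqrt hpos,
          mul_nonpos_of_nonneg_of_nonpos hq' (neg_nonpos.2 (Real.sqrt_nonneg _))⟩
    refine ⟨p + σ, q • z + σ • n + (0 : ℝ) • e, ?_, ?_, ?_⟩
    · intro h0
      have := LA1_form h.symm hf q σ 0 0 1 0
      rw [h0, LA1_zero_left] at this
      apply hq0
      linarith
    · have e3 : q * s = σ * σ := hσ2.symm
      have e4 : A *ᵥ (q • z + σ • n + (0 : ℝ) • e) =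
          (q * p + σ * q) • z + (q * s + σ * p) • n := by
        simp only [mulVec_add, mulVec_smul, e1, e2]
        module
      rw [e4, e3]
      module
    · rw [LA1_form h.symm hf]
      nlinarith

end Pool.Agent.helper68.B2
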