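import Pool.Agent.helper30.B2.LA1

/-! # B2, module LA2: self-adjoint endomorphisms of a Lorentz space of dimension 3 -/

set_option autoImplicit false

namespace Pool.Agent.helper68.B2

open scoped ContDiff Topology Matrix
open Matrix Set

/-- a symmetric matrix with vanishing adjugate has rank at most one -/
lemma LA2_rank1 {T : M3} (hT : Tᵀ = T) (ha : T.adjugate = 0) :
    ∃ (s : ℝ) (w : V3), (s = 1 ∨ s = -1) ∧ T = s • vecMulVec w w := by
  have h01 : T 1 0 = T 0 1 := congrFun (congrFun hT 0) 1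
  have h02 : T 2 0 = T 0 2 := congrFun (congrFun hT 0) 2
  have h12 : T 2 1 = T 1 2 := congrFun (congrFun hT 1) 2
  have ha' := ha
  rw [adjugate_fin_three] at ha'
  have m00 := congrFun (congrFun ha' 0) 0
  have m01 := congrFun (congrFun ha' 0) 1
  have m02 := congrFun (congrFun ha' 0) 2
  have m11 := congrFun (congrFun ha' 1) 1
  have m12 := congrFun (congrFun ha' 1) 2
  have m22 := congrFun (congrFun ha' 2) 2
  simp [h01, h02, h12] at m00 m01 m02 m11 m12 m22
  clear ha'
  have key : ∀ k, T k k ≠ 0 → (∀ i j, T k k * T i j = T k i * T k j) →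
      ∃ (s : ℝ) (w : V3), (s = 1 ∨ s = -1) ∧ T = s • vecMulVec w w := by
    intro k hk hm
    have hr : Real.sqrt |T k k| ^ 2 = |T k k| := Real.sq_sqrt (abs_nonneg _)
    have hr0 : Real.sqrt |T k k| ≠ 0 := (Real.sqrt_pos.2 (abs_pos.2 hk)).ne'
    rcases lt_or_gt_of_ne hk with h | h
    · refine ⟨-1, fun j => T k j / Real.sqrt |T k k|, Or.inr rfl, ?_⟩
      ext i j
      rw [Matrix.smul_apply, vecMulVec_apply, smul_eq_mul, div_mul_div_comm, ← sq, hr, abs_of_neg h,
        ← hm i j]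
      field_simp
    · refine ⟨1, fun j => T k j / Real.sqrt |T k k|, Or.inl rfl, ?_⟩
      ext i j
      rw [Matrix.smul_apply, vecMulVec_apply, smul_eq_mul, div_mul_div_comm, ← sq, hr, abs_of_pos h,
        ← hm i j]
      field_simp
  by_cases h0 : T 0 0 = 0
  · by_cases h1 : T 1 1 = 0
    · by_cases h2 : T 2 2 = 0
      · refine ⟨1, 0, Or.inl rfl, ?_⟩
        have e1 : T 0 1 = 0 := by
          rw [h0] at m22
          exact mul_self_eq_zero.1 (by linarith)
        have e2 : T 0 2 = 0 := by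
          rw [h0] at m11
          exact mul_self_eq_zero.1 (by linarith)
        have e3 : T 1 2 = 0 := by
          rw [h1] at m00
          exact mul_self_eq_zero.1 (by linarith)
        ext i j
        fin_cases i <;> fin_cases j <;> simp [h0, h1, h2, h01, h02, h12, e1, e2, e3]
      · apply key 2 h2
        intro i j
        fin_cases i <;> fin_cases j <;> simp [h01, h02, h12] <;> linarith
    · apply key 1 h1
      intro i j
      fin_cases i <;> fin_cases j <;> simp [h01, h02, h12] <;> linarith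
  · apply key 0 h0
    intro i j
    fin_cases i <;> fin_cases j <;> simp [h01, h02, h12] <;> linarith

lemma LA2_adj {G A : M3} (h : Lor G) {s : ℝ} {w : V3}
    (hw : A.adjugate * G⁻¹ = s • vecMulVec w w) : A.adjugate = s • vecMulVec w (G *ᵥ w) := by
  have hu : IsUnit G.det := isUnit_iff_ne_zero.2 h.det_neg.ne
  have h1 : A.adjugate = A.adjugate * G⁻¹ * G := by
    rw [Matrix.mul_assoc, nonsing_inv_mul _ hu, Matrix.mul_one]
  rw [h1, hw, smul_mul, vecMulVec_mul, ← mulVec_transpose, h.symm]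

lemma LA2_zero {G A : M3} (h : Lor G) (hd : A.det = 0) {s : ℝ} {w : V3}
    (hs : s = 1 ∨ s = -1) (hw : A.adjugate * G⁻¹ = s • vecMulVec w w) : A *ᵥ w = 0 := by
  have h1 := LA2_adj h hw
  have h2 : A * A.adjugate = 0 := by rw [mul_adjugate, hd, zero_smul]
  rw [h1, Matrix.mul_smul, mul_vecMulVec] at h2
  have hs0 : s ≠ 0 := by rcases hs with rfl | rfl <;> norm_num
  by_cases hw0 : w = 0
  · rw [hw0, mulVec_zero]
  have hG : G *ᵥ w ≠ 0 := by
    intro h0
    exact h.det_neg.ne (exists_mulVec_eq_zero_iff.1 ⟨w, hw0, h0⟩)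
  obtain ⟨j, hj⟩ := Function.ne_iff.1 hG
  ext i
  have h3 := congrFun (congrFun h2 i) j
  rw [Matrix.smul_apply, vecMulVec_apply, smul_eq_mul, Matrix.zero_apply] at h3
  have h4 := (mul_eq_zero.1 h3).resolve_left hs0
  exact (mul_eq_zero.1 h4).resolve_right hj

/-- the root of the adjugate at an eigenvalue `0` -/
theorem LA_adj_root {G A : M3} (h : Lor G) (hA : SA G A) (hd : A.det = 0) :
    ∃ (s : ℝ) (w : V3), (s = 1 ∨ s = -1) ∧ A.adjugate * G⁻¹ = s • vecMulVec w w ∧
      A.adjugate = s • vecMulVec w (G *ᵥ w) ∧ A *ᵥ w = 0 ∧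
      s * bil G w w = A.adjugate.trace := by
  have hdG : G.det ≠ 0 := h.det_neg.ne
  have hN : A.adjugate * G⁻¹ = (G.det)⁻¹ • (G * A).adjugate := by
    rw [adjugate_mul_distrib]
    rw [Matrix.inv_def, Ring.inverse_eq_inv', Matrix.mul_smul]
  have hsym : (A.adjugate * G⁻¹)ᵀ = A.adjugate * G⁻¹ := by
    rw [hN, transpose_smul, adjugate_transpose, hA]
  have hadj : (A.adjugate * G⁻¹).adjugate = 0 := by
    rw [hN, adjugate_smul, adjugate_adjugate _ (by simp), det_mul, hd]
    simp
  obtain ⟨s, w, hs, hw⟩ := LA2_rank1 hsym hadj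
  refine ⟨s, w, hs, hw, LA2_adj h hw, LA2_zero h hd hs hw, ?_⟩
  rw [LA2_adj h hw, trace_smul, trace_vecMulVec, smul_eq_mul]
  rfl

/-- if the adjugate does not vanish, its root spans the kernel -/
theorem LA_ker {G A : M3} (h : Lor G) (hA : SA G A) (hd : A.det = 0) (ha : A.adjugate ≠ 0)
    {s : ℝ} {w : V3} (hs : s = 1 ∨ s = -1) (hw : A.adjugate * G⁻¹ = s • vecMulVec w w) :
    w ≠ 0 ∧ A *ᵥ w = 0 ∧ ∀ v, A *ᵥ v = 0 → ∃ c : ℝ, v = c • w := by
  have hw0 : w ≠ 0 := by
    rintro rfl
    apply ha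
    rw [LA2_adj h hw]
    ext i j
    simp
  have hAw := LA2_zero h hd hs hw
  refine ⟨hw0, hAw, ?_⟩
  intro v hv
  -- the cross product of `v` and `w` vanishes
  have hr : ∀ i, A i 0 * v 0 + A i 1 * v 1 + A i 2 * v 2 = 0 := by
    intro i
    have := congrFun hv i
    simpa [mulVec, dotProduct, Fin.sum_univ_three] using this
  have hr' : ∀ i, A i 0 * w 0 + A i 1 * w 1 + A i 2 * w 2 = 0 := by
    intro i
    have := congrFun hAw i
    simpa [mulVec, dotProduct, Fin.sum_univ_three] using this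
  have hx : ∀ j k, v j * w k = v k * w j := by
    by_contra hne
    apply ha
    obtain ⟨x0, hx0⟩ : ∃ x0, x0 = v 1 * w 2 - v 2 * w 1 := ⟨_, rfl⟩
    obtain ⟨x1, hx1⟩ : ∃ x1, x1 = v 2 * w 0 - v 0 * w 2 := ⟨_, rfl⟩
    obtain ⟨x2, hx2⟩ : ∃ x2, x2 = v 0 * w 1 - v 1 * w 0 := ⟨_, rfl⟩
    have c1 : ∀ i, A i 0 * x1 = A i 1 * x0 := by
      intro i; rw [hx0, hx1]; linear_combination v 2 * hr' i - w 2 * hr i
    have c2 : ∀ i, A i 1 * x2 = A i 2 * x1 := by
      intro i; rw [hx1, hx2]; linear_combination v 0 * hr' i - w 0 * hr i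
    have c3 : ∀ i, A i 2 * x0 = A i 0 * x2 := by
      intro i; rw [hx0, hx2]; linear_combination v 1 * hr' i - w 1 * hr i
    obtain ⟨m, hm, hA'⟩ : ∃ m, (![x0, x1, x2] : V3) m ≠ 0 ∧
        ∀ i j, A i j * (![x0, x1, x2] : V3) m = A i m * (![x0, x1, x2] : V3) j := by
      by_cases g0 : x0 = 0
      · by_cases g1 : x1 = 0
        · by_cases g2 : x2 = 0
          · exfalso
            apply hne
            intro j k
            rw [hx0] at g0
            rw [hx1] at g1
            rw [hx2] at g2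
            fin_cases j <;> fin_cases k <;> simp <;> linarith
          · refine ⟨2, g2, ?_⟩
            intro i j
            fin_cases j
            · exact (c3 i).symm
            · exact c2 i
            · rfl
        · refine ⟨1, g1, ?_⟩
          intro i j
          fin_cases j
          · exact c1 i
          · rfl
          · exact (c2 i).symm
      · refine ⟨0, g0, ?_⟩
        intro i j
        fin_cases j
        · rfl
        · exact (c1 i).symm
        · exact c3 i
    generalize (![x0, x1, x2] : V3) = x at hm hA'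
    have M : ∀ i j k l, A i j * A k l = A i l * A k j := by
      intro i j k l
      have e1 : (A i j * A k l) * (x m * x m) = (A i l * A k j) * (x m * x m) := by
        calc (A i j * A k l) * (x m * x m) = (A i j * x m) * (A k l * x m) := by ring
          _ = (A i l * x m) * (A k j * x m) := by rw [hA' i j, hA' k l, hA' i l, hA' k j]; ring
          _ = _ := by ring
      exact mul_right_cancel₀ (mul_ne_zero hm hm) e1
    rw [adjugate_fin_three]
    ext i j
    fin_cases i <;> fin_cases j <;> simp <;>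
      linarith [M 0 0 1 1, M 0 0 1 2, M 0 1 1 2, M 0 0 2 1, M 0 0 2 2, M 0 1 2 2, M 1 0 2 1,
        M 1 0 2 2, M 1 1 2 2]
  obtain ⟨k, hk⟩ := Function.ne_iff.1 hw0
  refine ⟨v k / w k, ?_⟩
  ext j
  rw [Pi.smul_apply, smul_eq_mul]
  have := hx j k
  have hk' : w k ≠ 0 := hk
  field_simp
  exact this

lemma LA2_sa {G A : M3} (h : Gᵀ = G) (hA : SA G A) (c : ℝ) : SA G (A - c • 1) := by
  unfold SA at *
  rw [Matrix.mul_sub, transpose_sub, hA, Matrix.mul_smul, Matrix.mul_one, transpose_smul, h]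

lemma LA2_char (B : M3) (y : ℝ) :
    (y • (1 : M3) + B).det = B.det + y * B.adjugate.trace + y ^ 2 * B.trace + y ^ 3 := by
  rw [det_fin_three, det_fin_three, adjugate_fin_three, trace_fin_three, trace_fin_three]
  simp
  ring

lemma LA2_trace {A : M3} {τ b c : ℝ} (hr : RR3 A τ b c) :
    (A - τ • (1 : M3)).det = 0 ∧ (A - τ • (1 : M3)).adjugate.trace = (τ - b) * (τ - c) := by
  have h1 : ∀ y : ℝ, (y • (1 : M3) + (A - τ • (1 : M3))).det = y * (τ - b - y) * (τ - c - y) := by
    intro y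
    have e1 : y • (1 : M3) + (A - τ • (1 : M3)) = -((τ - y) • (1 : M3) - A) := by
      rw [sub_smul]; abel
    rw [e1, det_neg, hr]
    simp
    ring
  have h0 := h1 0
  have hp := h1 1
  have hm := h1 (-1)
  rw [LA2_char] at h0 hp hm
  constructor
  · linarith
  · linarith

/-- root of the adjugate at a simple eigenvalue -/
lemma LA2_simple {G A : M3} (h : Lor G) (hA : SA G A) {τ b c : ℝ} (hr : RR3 A τ b c)
    (hb : τ ≠ b) (hc : τ ≠ c) : ∃ (s : ℝ) (w' : V3), (s = 1 ∨ s = -1) ∧ w' ≠ 0 ∧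
      A *ᵥ w' = τ • w' ∧ s * bil G w' w' = (τ - b) * (τ - c) ∧
      ∀ v, A *ᵥ v = τ • v → ∃ k : ℝ, v = k • w' := by
  obtain ⟨hd, ht⟩ := LA2_trace hr
  have hA' := LA2_sa h.symm hA τ
  obtain ⟨s, w', hs, hw, _, _, htr⟩ := LA_adj_root h hA' hd
  have ha : (A - τ • (1 : M3)).adjugate ≠ 0 := by
    intro h0
    rw [h0, trace_zero] at ht
    exact mul_ne_zero (sub_ne_zero.2 hb) (sub_ne_zero.2 hc) ht.symm
  obtain ⟨hw0, hk, hker⟩ := LA_ker h hA' hd ha hs hw
  have heig : ∀ v, (A - τ • (1 : M3)) *ᵥ v = 0 ↔ A *ᵥ v = τ • v := by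
    intro v
    rw [sub_mulVec, smul_mulVec, one_mulVec, sub_eq_zero]
  refine ⟨s, w', hs, hw0, (heig _).1 hk, by rw [htr, ht], fun v hv => hker v ((heig v).2 hv)⟩

/-- simple causal eigenvalue: its eigenvector is timelike -/
theorem LA_simple {G A : M3} (h : Lor G) (hA : SA G A) {τ b c : ℝ} (hr : RR3 A τ b c)
    (hb : τ ≠ b) (hc : τ ≠ c) {w : V3} (hw : w ≠ 0) (he : A *ᵥ w = τ • w) (hl : bil G w w ≤ 0) :
    bil G w w < 0 := by
  obtain ⟨s, w', hs, hw0, _, hsb, hker⟩ := LA2_simple h hA hr hb hc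
  obtain ⟨k, rfl⟩ := hker w he
  have hk : k ≠ 0 := by rintro rfl; simp at hw
  have hne : bil G w' w' ≠ 0 := by
    intro h0
    rw [h0, mul_zero] at hsb
    exact mul_ne_zero (sub_ne_zero.2 hb) (sub_ne_zero.2 hc) hsb.symm
  refine lt_of_le_of_ne hl ?_
  rw [LA1_smul_left, LA1_smul_right]
  exact mul_ne_zero hk (mul_ne_zero hk hne)

/-- double causal eigenvalue, with third eigenvalue `b ≠ τ` -/
theorem LA_double {G A : M3} (h : Lor G) (hA : SA G A) {τ b : ℝ} (hr : RR3 A τ τ b)
    (hb : b ≠ τ) {w : V3} (hw : w ≠ 0) (he : A *ᵥ w = τ • w) (hl : bil G w w ≤ 0) :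
    ∃ (z n e : V3) (C : ℝ), NFrame G z n e ∧ A *ᵥ z = τ • z ∧ A *ᵥ n = τ • n + C • z ∧
      A *ᵥ e = b • e := by
  have hr' : RR3 A b τ τ := by intro t; rw [hr t]; ring
  obtain ⟨s, w', hs, hw0, hw', hsb, _⟩ := LA2_simple h hA hr' hb hb
  have hne : bil G w' w' ≠ 0 := by
    intro h0
    rw [h0, mul_zero] at hsb
    exact mul_ne_zero (sub_ne_zero.2 hb) (sub_ne_zero.2 hb) hsb.symm
  have hpos : 0 < bil G w' w' := by
    rcases lt_or_gt_of_ne hne with h1 | h1
    · exact absurd (LA_causal_unique h hA hw0 hw hw' he h1.le hl) hb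
    · exact h1
  obtain ⟨e, hed⟩ : ∃ e, e = (Real.sqrt (bil G w' w'))⁻¹ • w' := ⟨_, rfl⟩
  have hee : bil G e e = 1 := by rw [hed]; exact LA1_unit hpos
  have hae : A *ᵥ e = b • e := by rw [hed, mulVec_smul, hw', smul_comm]
  obtain ⟨z, n, hf⟩ := LA_frame_e h hee
  obtain ⟨p, q, r, s', t, u, e1, e2, _, hq, hs', hr'', ht, hu, _, hdet⟩ := LA1_mat h hA hf
  have r0 : r = 0 := by rw [hr'', hae, LA1_smul_right, hf.ne]; ring
  have t0 : t = 0 := by rw [ht, hae, LA1_smul_right, hf.ze]; ring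
  have u0 : u = b := by rw [hu, hae, LA1_smul_right, hf.ee]; ring
  subst r0 t0 u0
  have h1 := hdet (u + 1)
  have h2 := hdet (u - 1)
  rw [hr] at h1 h2
  have hp : p = τ := by linarith
  subst hp
  have hqs : q * s' = 0 := by linarith
  rcases mul_eq_zero.1 hqs with h3 | h3
  · refine ⟨n, z, e, s', ⟨hf.nn, hf.zz, by rw [bil_symm h.symm]; exact hf.zn, hee, hf.ne, hf.ze⟩,
      ?_, ?_, hae⟩
    · rw [e2, h3]; simp
    · rw [e1]; simp
  · refine ⟨z, n, e, q, hf, ?_, ?_, hae⟩
    · rw [e1, h3]; simp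
    · rw [e2]; simp [add_comm]

/-- null eigenvector at a multiple causal eigenvalue -/
theorem LA_null {G A : M3} (h : Lor G) (hA : SA G A) {τ b : ℝ} (hr : RR3 A τ τ b)
    {w : V3} (hw : w ≠ 0) (he : A *ᵥ w = τ • w) (hl : bil G w w ≤ 0) :
    ∃ z : V3, z ≠ 0 ∧ A *ᵥ z = τ • z ∧ bil G z z = 0 := by
  by_cases hb : b = τ
  · subst hb
    rcases hl.eq_or_lt with h0 | hlt
    · exact ⟨w, hw, he, h0⟩
    · -- a unit vector orthogonal to `w`
      obtain ⟨e, hee, hwe⟩ : ∃ e, bil G e e = 1 ∧ bil G w e = 0 := by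
        obtain ⟨z0, n0, e0, hf⟩ := LA1_exists h
        obtain ⟨x, y, c, rfl⟩ := LA1_coord h.symm hf w
        rw [LA1_form h.symm hf] at hlt
        have hy : y ≠ 0 := by
          rintro rfl
          nlinarith [sq_nonneg c]
        refine ⟨(-c / y) • z0 + (0 : ℝ) • n0 + (1 : ℝ) • e0, ?_, ?_⟩
        · rw [LA1_form h.symm hf]; ring
        · rw [LA1_form h.symm hf]; field_simp; ring
      obtain ⟨z, n, hf⟩ := LA_frame_e h hee
      obtain ⟨p, q, r, s, t, u, e1, e2, e3, _, _, _, _, _, _, hdet⟩ := LA1_mat h hA hf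
      have hwx := hf.expand h.symm w
      rw [hwe] at hwx
      obtain ⟨α, hα⟩ : ∃ α, α = bil G w n := ⟨_, rfl⟩
      obtain ⟨β, hβ⟩ : ∃ β, β = bil G w z := ⟨_, rfl⟩
      rw [← hα, ← hβ] at hwx
      have hnorm : 2 * (α * β) < 0 := by
        have := LA1_form h.symm hf α β 0 α β 0
        rw [← hwx] at this
        linarith
      have hα0 : α ≠ 0 := by rintro rfl; norm_num at hnorm
      have hβ0 : β ≠ 0 := by rintro rfl; norm_num at hnorm
      -- components of `A w = b w`
      have hAw : A *ᵥ w = (α * p + β * q) • z + (α * s + β * p) • n + (α * t + β * r) • e := by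
        rw [hwx]
        simp only [mulVec_add, mulVec_smul, e1, e2, zero_smul, add_zero]
        module
      have hbw : A *ᵥ w = (b * α) • z + (b * β) • n + (0 : ℝ) • e := by
        rw [he, hwx]; module
      have c1 : α * p + β * q = b * α := by
        have g1 := LA1_form h.symm hf (α * p + β * q) (α * s + β * p) (α * t + β * r) 0 1 0
        have g2 := LA1_form h.symm hf (b * α) (b * β) 0 0 1 0
        rw [← hAw] at g1
        rw [← hbw] at g2
        linarith
      have c2 : α * s + β * p = b * β := by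
        have g1 := LA1_form h.symm hf (α * p + β * q) (α * s + β * p) (α * t + β * r) 1 0 0
        have g2 := LA1_form h.symm hf (b * α) (b * β) 0 1 0 0
        rw [← hAw] at g1
        rw [← hbw] at g2
        linarith
      have c3 : α * t + β * r = 0 := by
        have g1 := LA1_form h.symm hf (α * p + β * q) (α * s + β * p) (α * t + β * r) 0 0 1
        have g2 := LA1_form h.symm hf (b * α) (b * β) 0 0 0 1
        rw [← hAw] at g1
        rw [← hbw] at g2
        linarith
      obtain ⟨δ, hδ⟩ : ∃ δ, p = b + δ := ⟨p - b, by ring⟩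
      obtain ⟨κ, hκ⟩ : ∃ κ, r = κ * t ∧ α = -(β * κ) := ⟨-α / β, by
        constructor
        · field_simp; linarith
        · field_simp⟩
      obtain ⟨hκ1, hκ2⟩ := hκ
      have hκ0 : 0 < κ := by
        have h4 : 0 < β * β * κ := by rw [hκ2] at hnorm; nlinarith
        exact (mul_pos_iff_of_pos_left (mul_self_pos.2 hβ0)).1 h4
      have hq : q = κ * δ := by
        rw [hκ2, hδ] at c1
        have : β * (q - κ * δ) = 0 := by linarith
        have := (mul_eq_zero.1 this).resolve_left hβ0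
        linarith
      have hs : κ * s = δ := by
        rw [hκ2, hδ] at c2
        have : β * (δ - κ * s) = 0 := by linarith
        have := (mul_eq_zero.1 this).resolve_left hβ0
        linarith
      have h1 := hdet (b + 1)
      have h2 := hdet (b - 1)
      have h3 := hdet b
      rw [hr] at h1 h2 h3
      rw [hδ] at h1 h2 h3
      have htr : u = b - 2 * δ := by linarith
      rw [htr] at h1 h2 h3
      have hqs : q * s = δ ^ 2 := by rw [hq]; linear_combination δ * hs
      have hrt : r * t = κ * t ^ 2 := by rw [hκ1]; ring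
      have key : 4 * δ ^ 2 + 2 * (κ * t ^ 2) = 0 := by
        rw [← hrt]
        linear_combination (1 / 2) * h1 - (1 / 2) * h2 - hqs
      have hκt : 0 ≤ κ * t ^ 2 := mul_nonneg hκ0.le (sq_nonneg t)
      have hδ0 : δ = 0 := by
        have : δ ^ 2 = 0 := by linarith [sq_nonneg δ]
        exact pow_eq_zero_iff two_ne_zero |>.1 this
      have ht0 : t = 0 := by
        have : κ * t ^ 2 = 0 := by linarith [sq_nonneg δ]
        exact pow_eq_zero_iff two_ne_zero |>.1 ((mul_eq_zero.1 this).resolve_left hκ0.ne')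
      have hs0 : s = 0 := by
        rw [hδ0] at hs
        exact (mul_eq_zero.1 hs).resolve_left hκ0.ne'
      refine ⟨z, LA1_z_ne hf, ?_, hf.zz⟩
      rw [e1, hδ, hδ0, ht0, hs0]
      module
  · obtain ⟨z, n, e, _, hf, hz, _, _⟩ := LA_double h hA hr hb hw he hl
    exact ⟨z, LA1_z_ne hf, hz, hf.zz⟩

/-- triple eigenvalue -/
theorem LA_triple {G A : M3} (h : Lor G) (hA : SA G A) {c : ℝ} (hr : RR3 A c c c) :
    ∃ (z n e : V3) (C E : ℝ), NFrame G z n e ∧ A *ᵥ z = c • z ∧ A *ᵥ e = c • e + E • z ∧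
      A *ᵥ n = c • n + C • z + E • e := by
  obtain ⟨μ, w, hw, he, hl⟩ := LA_causal_exists h hA hr
  have hμ : μ = c := by
    have h1 : (μ • (1 : M3) - A).det = 0 := by
      apply exists_mulVec_eq_zero_iff.1
      refine ⟨w, hw, ?_⟩
      rw [sub_mulVec, smul_mulVec, one_mulVec, he, sub_self]
    rw [hr μ] at h1
    have h2 : (μ - c) ^ 3 = 0 := by rw [← h1]; ring
    have := pow_eq_zero_iff (three_ne_zero) |>.1 h2
    linarith
  subst hμ
  obtain ⟨z, hz, hz', hzz⟩ := LA_null h hA hr hw he hl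
  obtain ⟨e, hee, hze⟩ := LA_exists_e h hz hzz
  obtain ⟨n, hf⟩ := LA_frame h hz hzz hee hze
  obtain ⟨p, q, r, s, t, u, e1, e2, e3, hq, hs, _, ht, hu, hp, hdet⟩ := LA1_mat h hA hf
  have s0 : s = 0 := by rw [hs, hz', LA1_smul_right, hzz]; ring
  have t0 : t = 0 := by
    rw [ht, ← LA1_sa h.symm hA, hz', LA1_smul_left, hze]; ring
  have p0 : p = μ := by
    rw [hp, hz', LA1_smul_right, bil_symm h.symm, hf.zn]; ring
  subst s0 t0 p0
  have h1 := hdet (p + 1)
  rw [hr] at h1
  have hu' : u = p := by linarith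
  subst hu'
  refine ⟨z, n, e, q, r, hf, hz', ?_, ?_⟩
  · rw [e3]; module
  · rw [e2]; module

end Pool.Agent.helper68.B2
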