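import Pool.Agent.helper30.B2.NDneg
import Pool.Agent.helper30.B2.LA2
import Pool.Agent.helper49.B2.FR1
import Pool.Agent.helper49.B2.FR2
import Pool.Agent.helper92.B2.J2b
import Pool.Agent.helper2.B2.DX8

/-! # B2, module ND: the adjugate of `L - τ` does not vanish -/

set_option autoImplicit false

namespace Pool.Agent.helper68.B2

open scoped ContDiff Topology Matrix
open Matrix Set
open Pool.Agent.helper25.B2 (Sol Block)

variable {S : Geo}

namespace Roots

variable (R : Roots S)

theorem no_D (hNC : S.NC) {x : E4} (hx : x ≠ 0) : (S.L x - R.τ x • (1 : M3)).adjugate ≠ 0 := by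
  intro h0
  obtain ⟨h1, _⟩ := RR3_adj (R.fac x hx)
  rw [h0, trace_zero] at h1
  have htr := RR3_trace (R.fac x hx)
  have hM := ND_adj (S.L x - R.τ x • (1 : M3))
  rw [h0, trace_zero, zero_smul, add_zero] at hM
  have htM : (S.L x - R.τ x • (1 : M3)).trace = R.σ₁ x + R.σ₂ x - 2 * R.τ x := by
    rw [trace_sub, trace_smul, trace_one, htr]
    simp
    ring
  by_cases h3 : R.τ x = R.σ₁ x ∧ R.τ x = R.σ₂ x
  · apply S.no_sq hNC R hx (R.τ x)
    have : (S.L x - R.τ x • (1 : M3)).trace = 0 := by
      rw [htM, ← h3.1, ← h3.2]; ring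
    rw [this, zero_smul, sub_zero] at hM
    exact hM.symm
  · have hS2 : x ∈ R.S2 := by
      refine ⟨hx, ?_⟩
      rcases mul_eq_zero.1 h1.symm with h4 | h4
      · left
        have h5 : R.τ x = R.σ₁ x := by linarith
        exact ⟨h5, fun h6 => h3 ⟨h5, h6⟩⟩
      · right
        have h5 : R.τ x = R.σ₂ x := by linarith
        exact ⟨h5, fun h6 => h3 ⟨h6, h5⟩⟩
    have hN := R.S2_sub_N hS2
    obtain ⟨hfac, hne⟩ := (R.far_S2 hN).1 hS2
    have hm := R.m_S2 hS2
    -- `Nn x = 0`
    obtain ⟨k, hk⟩ : ∃ k, k = R.far x - R.τ x := ⟨_, rfl⟩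
    have hk0 : k ≠ 0 := by rw [hk]; exact sub_ne_zero.2 hne
    obtain ⟨M, hMd⟩ : ∃ M, M = S.L x - R.τ x • (1 : M3) := ⟨_, rfl⟩
    have htMk : M.trace = k := by
      have := RR3_trace hfac
      rw [hMd, trace_sub, trace_smul, trace_one, this, hk]
      simp
      ring
    have hMM : M * M = k • M := by
      rw [← hMd, htMk] at hM
      exact (sub_eq_zero.1 hM.symm)
    have hfarM : S.L x - R.far x • (1 : M3) = M - k • (1 : M3) := by
      rw [hMd, hk, sub_smul]; abel
    have hPi : R.Pi x = k ^ 2 := by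
      have h5 : RR3 (S.L x) (R.far x) (R.τ x) (R.τ x) := by
        intro t; rw [hfac t]; ring
      have h6 := (RR3_adj h5).1
      show (S.L x - R.far x • (1 : M3)).adjugate.trace = _
      rw [h6, hk]; ring
    have hadj : (S.L x - R.far x • (1 : M3)).adjugate = k • M := by
      rw [ND_adj]
      have h7 : (S.L x - R.far x • (1 : M3)).adjugate.trace = k ^ 2 := hPi
      have h8 : (S.L x - R.far x • (1 : M3)).trace = -2 * k := by
        rw [hfarM, trace_sub, trace_smul, trace_one, htMk]
        simp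
        ring
      rw [h7, h8, hfarM]
      have h9 : (M - k • (1 : M3)) * (M - k • (1 : M3)) = M * M - (2 * k) • M + (k ^ 2) • (1 : M3) := by
        simp only [Matrix.mul_sub, Matrix.sub_mul, Matrix.mul_smul, Matrix.smul_mul,
          Matrix.mul_one, Matrix.one_mul]
        module
      rw [h9, hMM]
      module
    have hNn : R.Nn x = 0 := by
      show S.L x - R.m x • (1 : M3) - (R.far x - R.m x) •
        ((R.Pi x)⁻¹ • (S.L x - R.far x • (1 : M3)).adjugate) = 0
      rw [hm, ← hMd, ← hk, hPi, hadj, smul_smul, smul_smul]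
      have : k * (k ^ 2)⁻¹ * k = 1 := by field_simp
      have h10 : k * ((k ^ 2)⁻¹ * k) = 1 := by rw [← mul_assoc]; exact this
      first
      | rw [h10, one_smul, sub_self]
      | rw [this, one_smul, sub_self]
    -- `h x ≠ 0`
    have hh : R.h x ≠ 0 := by
      obtain ⟨B, z, n, e, hxW, hB, hA, hNZ, _, hall⟩ := R.block_at hNC hS2
      obtain ⟨_, _, hh, _, _, _, _, hNn'⟩ := hall x hxW
      have hf := hB.frame x hxW
      have hsymm := S.symm x hx
      have nz : bil (S.G x) (n x) (z x) = 1 := by rw [bil_symm hsymm]; exact hf.zn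
      rw [hNn] at hNn'
      have hv : ∀ a b v : V3, vecMulVec a (S.G x *ᵥ b) *ᵥ v = bil (S.G x) v b • a := by
        intro a b v
        ext i
        simp only [mulVec, vecMulVec_apply, Pi.smul_apply, smul_eq_mul, bil, dotProduct]
        rw [Finset.sum_mul]
        exact Finset.sum_congr rfl fun j _ => by ring
      have ha : B.a x = 0 := by
        have h5 := congrArg (fun Q : M3 => bil (S.G x) (n x) (Q *ᵥ n x)) hNn'
        simp only [zero_mulVec, add_mulVec, smul_mulVec, hv, LA1_zero_right, LA1_add_right,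
          LA1_smul_right, hf.nn, nz] at h5
        linarith
      have hb : B.b x = 0 := by
        have h5 := congrArg (fun Q : M3 => bil (S.G x) (z x) (Q *ᵥ z x)) hNn'
        simp only [zero_mulVec, add_mulVec, smul_mulVec, hv, LA1_zero_right, LA1_add_right,
          LA1_smul_right, hf.zz, hf.zn] at h5
        linarith
      rw [← hh]
      exact hNZ x hxW ha hb (hA.1 x hxW ha) (hA.2 x hxW hb)
    rcases lt_or_gt_of_ne hh with hneg | hpos
    · refine R.neg.DX8 (S.neg_NC hNC) ((R.neg_S2 x).2 hS2) ?_ ?_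
      · rw [R.neg_Nn hN, hNn, neg_zero]
      · rw [R.neg_h hN]; linarith
    · exact R.DX8 hNC hS2 hNn hpos

end Roots

end Pool.Agent.helper68.B2
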