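import Pool.Agent.helper17.B2.RT
import Pool.Agent.helper68.B2.Defs3

/-! # B2: change of sign of the roots (R.neg : Roots S.neg) -/

set_option autoImplicit false

namespace Pool.Agent.helper68.B2

open scoped ContDiff Topology Matrix
open Matrix Set
open Pool.Agent.helper25.B2 (Sol Block)

variable {S : Geo}

lemma ND_adj (A : M3) : A.adjugate = A * A - A.trace • A + A.adjugate.trace • (1 : M3) := by
  rw [adjugate_fin_three, trace_fin_three, trace_fin_three]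
  ext i j
  fin_cases i <;> fin_cases j <;>
    simp [Matrix.mul_apply, Fin.sum_univ_three] <;> ring

lemma ND_adj_neg (A : M3) : (-A).adjugate = A.adjugate := by
  rw [adjugate_fin_three, adjugate_fin_three]
  ext i j
  fin_cases i <;> fin_cases j <;> simp

namespace Roots

/-- the roots of `-L` -/
noncomputable def neg (R : Roots S) : Roots S.neg where
  τ := fun x => -R.τ x
  σ₁ := fun x => -R.σ₂ x
  σ₂ := fun x => -R.σ₁ x
  cτ := R.cτ.neg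
  c₁ := R.c₂.neg
  c₂ := R.c₁.neg
  hτ := fun t ht x => congrArg Neg.neg (R.hτ t ht x)
  h₁ := fun t ht x => congrArg Neg.neg (R.h₂ t ht x)
  h₂ := fun t ht x => congrArg Neg.neg (R.h₁ t ht x)
  fac := by
    intro x hx t
    have h1 := R.fac x hx (-t)
    have e1 : t • (1 : M3) - S.neg.L x = -((-t) • (1 : M3) - S.L x) := by
      show t • (1 : M3) - (-S.L x) = _
      rw [neg_smul]; abel
    rw [e1, det_neg, h1]
    simp
    ring
  le := fun x hx => neg_le_neg (R.le x hx)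
  causal := by
    intro x hx
    obtain ⟨w, hw, he, hl⟩ := R.causal x hx
    refine ⟨w, hw, ?_, hl⟩
    show (-S.L x) *ᵥ w = (-R.τ x) • w
    rw [neg_mulVec, he, neg_smul]

variable (R : Roots S)

lemma neg_N (x : E4) : x ∈ R.neg.N ↔ x ∈ R.N := by
  show (x ≠ 0 ∧ |(-R.σ₂ x) - (-R.τ x)| ≠ |(-R.σ₁ x) - (-R.τ x)|) ↔
    (x ≠ 0 ∧ |R.σ₁ x - R.τ x| ≠ |R.σ₂ x - R.τ x|)
  have e1 : |(-R.σ₂ x) - (-R.τ x)| = |R.σ₂ x - R.τ x| := by
    rw [← abs_neg]; congr 1; ring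
  have e2 : |(-R.σ₁ x) - (-R.τ x)| = |R.σ₁ x - R.τ x| := by
    rw [← abs_neg]; congr 1; ring
  rw [e1, e2]
  exact and_congr Iff.rfl ne_comm

lemma neg_far {x : E4} (hx : x ∈ R.N) : R.neg.far x = -R.far x := by
  have e1 : |(-R.σ₂ x) - (-R.τ x)| = |R.σ₂ x - R.τ x| := by
    rw [← abs_neg]; congr 1; ring
  have e2 : |(-R.σ₁ x) - (-R.τ x)| = |R.σ₁ x - R.τ x| := by
    rw [← abs_neg]; congr 1; ring
  show (if |(-R.σ₂ x) - (-R.τ x)| < |(-R.σ₁ x) - (-R.τ x)| then (-R.σ₁ x) else (-R.σ₂ x)) =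
    -(if |R.σ₁ x - R.τ x| < |R.σ₂ x - R.τ x| then R.σ₂ x else R.σ₁ x)
  rw [e1, e2]
  rcases lt_or_gt_of_ne hx.2 with h | h
  · rw [if_neg (not_lt.2 h.le), if_pos h]
  · rw [if_pos h, if_neg (not_lt.2 h.le)]

lemma neg_m {x : E4} (hx : x ∈ R.N) : R.neg.m x = -R.m x := by
  show ((-S.L x).trace - R.neg.far x) / 2 = -(((S.L x).trace - R.far x) / 2)
  rw [R.neg_far hx, trace_neg]; ring

lemma neg_sub {x : E4} (hx : x ∈ R.N) :
    (S.neg.L x - R.neg.far x • (1 : M3)).adjugate = (S.L x - R.far x • (1 : M3)).adjugate := by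
  have e1 : S.neg.L x - R.neg.far x • (1 : M3) = -(S.L x - R.far x • (1 : M3)) := by
    show (-S.L x) - R.neg.far x • (1 : M3) = _
    rw [R.neg_far hx, neg_smul]; abel
  rw [e1, ND_adj_neg]

lemma neg_Pi {x : E4} (hx : x ∈ R.N) : R.neg.Pi x = R.Pi x := by
  show (S.neg.L x - R.neg.far x • (1 : M3)).adjugate.trace =
    (S.L x - R.far x • (1 : M3)).adjugate.trace
  rw [R.neg_sub hx]

lemma neg_P3 {x : E4} (hx : x ∈ R.N) : R.neg.P3 x = R.P3 x := by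
  show (R.neg.Pi x)⁻¹ • (S.neg.L x - R.neg.far x • (1 : M3)).adjugate =
    (R.Pi x)⁻¹ • (S.L x - R.far x • (1 : M3)).adjugate
  rw [R.neg_sub hx, R.neg_Pi hx]

lemma neg_X {x : E4} (hx : x ∈ R.N) : R.neg.X x = -R.X x := by
  show (-S.lam x) - R.neg.P3 x *ᵥ (-S.lam x) = -(S.lam x - R.P3 x *ᵥ S.lam x)
  rw [R.neg_P3 hx, mulVec_neg]; abel

lemma neg_Nn {x : E4} (hx : x ∈ R.N) : R.neg.Nn x = -R.Nn x := by
  show (-S.L x) - R.neg.m x • (1 : M3) - (R.neg.far x - R.neg.m x) • R.neg.P3 x =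
    -(S.L x - R.m x • (1 : M3) - (R.far x - R.m x) • R.P3 x)
  rw [R.neg_P3 hx, R.neg_far hx, R.neg_m hx]
  have e1 : (-R.far x - -R.m x) = -(R.far x - R.m x) := by ring
  rw [e1, neg_smul, neg_smul]
  abel

lemma neg_h {x : E4} (hx : x ∈ R.N) : R.neg.h x = -R.h x := by
  show ((S.neg.Lam x).trace - (R.neg.P3 x * S.neg.Lam x).trace) / 2
    - S.g x (R.neg.P3 x *ᵥ (-S.lam x)) (-S.lam x) * (R.neg.far x - R.neg.m x) / R.neg.Pi x =
    -(((S.Lam x).trace - (R.P3 x * S.Lam x).trace) / 2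
    - S.g x (R.P3 x *ᵥ S.lam x) (S.lam x) * (R.far x - R.m x) / R.Pi x)
  rw [S.neg_Lam, R.neg_P3 hx, R.neg_far hx, R.neg_m hx, R.neg_Pi hx]
  have e1 : S.g x (R.P3 x *ᵥ (-S.lam x)) (-S.lam x) = S.g x (R.P3 x *ᵥ S.lam x) (S.lam x) := by
    unfold Geo.g bil
    rw [mulVec_neg, mulVec_neg, neg_dotProduct, dotProduct_neg, neg_neg]
  rw [e1, Matrix.mul_neg, trace_neg, trace_neg]
  ring

lemma neg_S2 (x : E4) : x ∈ R.neg.S2 ↔ x ∈ R.S2 := by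
  show (x ≠ 0 ∧ ((-R.τ x = -R.σ₂ x ∧ -R.τ x ≠ -R.σ₁ x) ∨ (-R.τ x = -R.σ₁ x ∧ -R.τ x ≠ -R.σ₂ x))) ↔
    (x ≠ 0 ∧ ((R.τ x = R.σ₁ x ∧ R.τ x ≠ R.σ₂ x) ∨ (R.τ x = R.σ₂ x ∧ R.τ x ≠ R.σ₁ x)))
  simp only [neg_inj, ne_eq]
  tauto

end Roots

end Pool.Agent.helper68.B2
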